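import Pool.Agent.H8.TD.Targets

/-!
# Existence of independent linear combinations (EXT)
-/

set_option autoImplicit false

open MvPolynomial
open Pool.Agent.H8.TD

namespace Pool.Agent.H14.TD

theorem isAlgebraic_of_hom {E S K : Type} [CommRing E] [CommRing S] [Field K] [Algebra E K]
    [Algebra S K] (f : E →+* S) (hf : Function.Injective f)
    (hc : ∀ e, algebraMap S K (f e) = algebraMap E K e) {x : K} (hx : IsAlgebraic E x) :
    IsAlgebraic S x := by
  obtain ⟨p, hp, hpx⟩ := hx
  refine ⟨p.map f, (Polynomial.map_ne_zero_iff hf).mpr hp, ?_⟩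
  rw [Polynomial.aeval_def, Polynomial.eval₂_map]
  have h1 : (algebraMap S K).comp f = algebraMap E K := RingHom.ext hc
  rw [h1]
  exact hpx

/-- transitivity -/
theorem alg_trans {k K : Type} [Field k] [Field K] [Algebra k K] (S : Set K) {a : ℕ}
    (B : Fin a → K)
    (hB : Algebra.IsAlgebraic (IntermediateField.adjoin k (Set.range B)) K)
    (h : ∀ i, IsAlgebraic (Algebra.adjoin k S) (B i)) :
    Algebra.IsAlgebraic (Algebra.adjoin k S) K := by
  have h1 : ∀ x ∈ IntermediateField.adjoin k (Set.range B),
      IsAlgebraic (Algebra.adjoin k S) x := by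
    intro x hx
    induction hx using IntermediateField.adjoin_induction with
    | mem x hx =>
      obtain ⟨i, rfl⟩ := hx
      exact h i
    | algebraMap c =>
      exact isAlgebraic_algebraMap (algebraMap k (Algebra.adjoin k S) c)
    | add x y _ _ hx hy => exact hx.add hy
    | inv x _ hx => exact hx.inv
    | mul x y _ _ hx hy => exact hx.mul hy
  refine ⟨fun x => ?_⟩
  let T := Subalgebra.algebraicClosure (Algebra.adjoin k S) K
  have hT : Algebra.IsAlgebraic (Algebra.adjoin k S) T := ⟨fun t =>
    (isAlgebraic_algebraMap_iff (A := K) Subtype.val_injective).mp t.2⟩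
  let f : IntermediateField.adjoin k (Set.range B) →+* T :=
    { toFun := fun e => ⟨e, h1 e e.2⟩
      map_one' := rfl
      map_mul' := fun _ _ => rfl
      map_zero' := rfl
      map_add' := fun _ _ => rfl }
  have hx : IsAlgebraic T x := isAlgebraic_of_hom f
    (fun a b hab => Subtype.ext (congrArg (fun t : T => (t : K)) hab)) (fun _ => rfl)
    (hB.isAlgebraic x)
  exact hx.restrictScalars (Algebra.adjoin k S)

/-- a finitely generated algebraic extension is finite -/
theorem fin_of_alg {k K : Type} [Field k] [Field K] [Algebra k K]
    (hfg : (⊤ : IntermediateField k K).FG) (S : Set K)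
    (h : Algebra.IsAlgebraic (Algebra.adjoin k S) K) :
    FiniteDimensional (IntermediateField.adjoin k S) K := by
  obtain ⟨T, hT, hTt⟩ := IntermediateField.fg_def.mp hfg
  have hTf : Finite T := hT
  have hle : Algebra.adjoin k S ≤ (IntermediateField.adjoin k S).toSubalgebra :=
    IntermediateField.algebra_adjoin_le_adjoin k S
  have hint : ∀ x : K, IsIntegral (IntermediateField.adjoin k S) x := by
    intro x
    refine (isAlgebraic_of_hom (Subalgebra.inclusion hle).toRingHom
      (Subalgebra.inclusion_injective hle) (fun _ => rfl) (h.isAlgebraic x)).isIntegral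
  have h1 : FiniteDimensional (IntermediateField.adjoin k S)
      (IntermediateField.adjoin (IntermediateField.adjoin k S) T) :=
    IntermediateField.finiteDimensional_adjoin fun x _ => hint x
  have h2 : IntermediateField.adjoin (IntermediateField.adjoin k S) T = ⊤ := by
    rw [eq_top_iff]
    intro x _
    have h3 : IntermediateField.adjoin k T ≤
        (IntermediateField.adjoin (IntermediateField.adjoin k S) T).restrictScalars k := by
      rw [IntermediateField.adjoin_le_iff]
      exact IntermediateField.subset_adjoin _ _
    rw [hTt] at h3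
    exact h3 IntermediateField.mem_top
  rw [h2] at h1
  exact Module.Finite.equiv (IntermediateField.topEquiv
    (F := IntermediateField.adjoin k S) (E := K)).toLinearEquiv

theorem lc_single {k M : Type} [CommRing k] [AddCommGroup M] [Module k M] {a : ℕ} (i : Fin a)
    (φ : Fin a → M) : lc (Pi.single i (1 : k)) φ = φ i := by
  unfold lc
  rw [Finset.sum_eq_single i]
  · rw [Pi.single_eq_same, one_smul]
  · intro j _ hj
    rw [Pi.single_eq_of_ne hj, zero_smul]
  · intro h
    exact absurd (Finset.mem_univ i) h

theorem pf_EXT : T_EXT := by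
  intro k K _ _ _ A B g htr hfg hg hA hB
  have h0 : AlgebraicIndepOn k (id : K → K) ({g} : Set K) := by
    have h1 := (algebraicIndependent_iff_transcendental (R := k) (x := g)).mpr hg
    have h2 := h1.to_subtype_range
    have h3 : Set.range ![g] = ({g} : Set K) := by
      rw [Matrix.range_cons, Matrix.range_empty, Set.union_empty]
    rw [h3] at h2
    exact h2
  obtain ⟨i, hi⟩ : ∃ i, Transcendental (Algebra.adjoin k ({g} : Set K)) (B i) := by
    by_contra hcon
    push Not at hcon
    have h1 := alg_trans ({g} : Set K) B hB (fun i => by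
      have := hcon i
      unfold Transcendental at this
      push Not at this
      exact this)
    have h2 := Algebra.IsAlgebraic.trdeg_le_cardinalMk k ({g} : Set K)
    rw [htr, Cardinal.mk_singleton] at h2
    exact absurd h2 (by norm_num)
  have h1 : AlgebraicIndepOn k (id : K → K) (insert (B i) ({g} : Set K)) := by
    refine h0.insert ?_
    rw [Set.image_id]
    exact hi
  obtain ⟨j, hj⟩ : ∃ j, Transcendental (Algebra.adjoin k (insert (B i) ({g} : Set K))) (A j) := by
    by_contra hcon
    push Not at hcon
    have h1 := alg_trans (insert (B i) ({g} : Set K)) A hA (fun i => by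
      have := hcon i
      unfold Transcendental at this
      push Not at this
      exact this)
    have h2 := Algebra.IsAlgebraic.trdeg_le_cardinalMk k (insert (B i) ({g} : Set K))
    have h3 := h2.trans Cardinal.mk_insert_le
    rw [htr, Cardinal.mk_singleton] at h3
    have h4 : ((3 : ℕ) : Cardinal) ≤ ((2 : ℕ) : Cardinal) := by
      push_cast
      calc (3 : Cardinal) ≤ 1 + 1 := h3
        _ = 2 := one_add_one_eq_two
    have h5 : (3 : ℕ) ≤ 2 := by exact_mod_cast h4
    omega
  have h2 : AlgebraicIndepOn k (id : K → K) (insert (A j) (insert (B i) ({g} : Set K))) := by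
    refine h1.insert ?_
    rw [Set.image_id]
    exact hj
  have hBg : B i ∉ ({g} : Set K) := by
    intro h
    exact hi (isAlgebraic_algebraMap
      (⟨B i, Algebra.subset_adjoin h⟩ : Algebra.adjoin k ({g} : Set K)))
  have hAg : A j ∉ (insert (B i) ({g} : Set K)) := by
    intro h
    exact hj (isAlgebraic_algebraMap
      (⟨A j, Algebra.subset_adjoin h⟩ : Algebra.adjoin k (insert (B i) ({g} : Set K))))
  have hcard : Algebra.trdeg k K ≤
      Cardinal.mk (insert (A j) (insert (B i) ({g} : Set K)) : Set K) := by
    rw [Cardinal.mk_insert hAg, Cardinal.mk_insert hBg, Cardinal.mk_singleton, htr]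
    norm_num
  have hfinS : Finite (insert (A j) (insert (B i) ({g} : Set K)) : Set K) :=
    (((Set.finite_singleton g).insert (B i)).insert (A j))
  have hb := h2.isTranscendenceBasis_of_trdeg_le_of_finite hcard
  have halg := hb.isAlgebraic
  have hrange : Set.range (fun x : (insert (A j) (insert (B i) ({g} : Set K)) : Set K) =>
      id (x : K)) = insert (A j) (insert (B i) ({g} : Set K)) := Subtype.range_coe
  rw [hrange] at halg
  have hfd := fin_of_alg hfg _ halg
  refine ⟨Pi.single i 1, Pi.single j 1, ?_⟩
  rw [lc_single, lc_single]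
  have hset : ({g, B i, A j} : Set K) = insert (A j) (insert (B i) ({g} : Set K)) := by
    ext x
    simp only [Set.mem_insert_iff, Set.mem_singleton_iff]
    tauto
  rw [hset]
  unfold dg
  exact Module.finrank_pos

end Pool.Agent.H14.TD
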