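import Pool.Agent.H14.TD.EXT

/-!
# Growth of the intersection numbers under composition (INS)
-/

set_option autoImplicit false

open MvPolynomial
open Pool.Agent.H12.ZD (pmap v O Res DenseOrbit NoInv)
open Pool.Agent.H18.HIT
open Pool.Agent.H8.ZA (HFam Const NA sz)
open Pool.Agent.H8.TD

namespace Pool.Agent.H14.TD

theorem exists_iter {k C : Type} [Field k] [Field C] [Algebra k C] (τ : C →ₐ[k] C) (m : ℕ) :
    ∃ σ : C →ₐ[k] C, ∀ x, σ x = τ^[m] x := by
  induction m with
  | zero => exact ⟨AlgHom.id k C, fun _ => rfl⟩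
  | succ m ih =>
    obtain ⟨σ, hσ⟩ := ih
    refine ⟨σ.comp τ, fun x => ?_⟩
    rw [AlgHom.comp_apply, hσ, Function.iterate_succ_apply]

theorem indep_xx (k : Type) [Field k] : AlgebraicIndependent k (xx k) := by
  have h1 := (MvPolynomial.algebraicIndependent_X (Fin 3) k).map'
    (f := IsScalarTower.toAlgHom k (Po 3 k) (K3 k))
    (IsFractionRing.injective (Po 3 k) (K3 k))
  exact h1

theorem not_alg (k : Type) [Field k] (β γ : K3 k)
    (h : Algebra.IsAlgebraic (IntermediateField.adjoin k ({β, γ} : Set (K3 k))) (K3 k)) :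
    False := by
  have hr : Set.range ![β, γ] = ({β, γ} : Set (K3 k)) := by
    rw [Matrix.range_cons, Matrix.range_cons, Matrix.range_empty, Set.union_empty]
    rfl
  have h' : Algebra.IsAlgebraic (IntermediateField.adjoin k (Set.range ![β, γ])) (K3 k) := by
    rw [hr]
    exact h
  have h1 := alg_trans ({β, γ} : Set (K3 k)) ![β, γ] h' (fun i => by
    have h2 : ![β, γ] i ∈ ({β, γ} : Set (K3 k)) := by
      rw [← hr]
      exact ⟨i, rfl⟩
    exact isAlgebraic_algebraMap
      (⟨_, Algebra.subset_adjoin h2⟩ : Algebra.adjoin k ({β, γ} : Set (K3 k))))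
  have h2 := Algebra.IsAlgebraic.trdeg_le_cardinalMk k ({β, γ} : Set (K3 k))
  have h3 := (indep_xx k).cardinalMk_le_trdeg
  have h4 := (h3.trans h2).trans Cardinal.mk_insert_le
  rw [Cardinal.mk_fin, Cardinal.mk_singleton] at h4
  have h5 : ((3 : ℕ) : Cardinal) ≤ ((2 : ℕ) : Cardinal) := by
    calc ((3 : ℕ) : Cardinal) ≤ 1 + 1 := h4
      _ = ((2 : ℕ) : Cardinal) := by
        push_cast
        exact one_add_one_eq_two
  have h6 : (3 : ℕ) ≤ 2 := by exact_mod_cast h5
  omega

theorem totalDegree_map_le' {σ R S : Type} [CommRing R] [CommRing S] (f : R →+* S)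
    (p : MvPolynomial σ R) : (MvPolynomial.map f p).totalDegree ≤ p.totalDegree := by
  classical
  exact Finset.sup_mono (MvPolynomial.support_map_subset f p)

theorem pf_INS (hPDG : T_PDG) (hADJ : T_ADJ) : T_INS := by
  intro k _ _ τ P δ m n Y β γ hdeg hP0 hph hBd s s' s''
  set κ := IntermediateField.adjoin k ({lc s' β, lc s'' γ} : Set (K3 k)) with hκ
  have hins : ∀ c : K3 k, dg k {c, lc s' β, lc s'' γ} = dg κ {c} := by
    intro c
    exact (hADJ k (K3 k) ({lc s' β, lc s'' γ} : Set (K3 k)) c).symm
  rw [hins]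
  by_cases hy : ∃ y : K3 k, FiniteDimensional (IntermediateField.adjoin κ {y}) (K3 k)
  · have ht : ∃ y : K3 k, Transcendental κ y := by
      by_contra hcon
      push Not at hcon
      refine not_alg k (lc s' β) (lc s'' γ) ⟨fun x => ?_⟩
      have := hcon x
      unfold Transcendental at this
      push Not at this
      exact this
    have hch : CharZero κ := charZero_of_injective_algebraMap (algebraMap k κ).injective
    obtain ⟨σ, hσ⟩ := exists_iter τ m
    have hσa : ∀ Q : Po 3 k, σ (algebraMap (Po 3 k) (K3 k) Q) = aeval (ph τ m) Q := by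
      intro Q
      have h1 : σ.comp (IsScalarTower.toAlgHom k (Po 3 k) (K3 k)) = aeval (ph τ m) := by
        apply MvPolynomial.algHom_ext
        intro i
        rw [aeval_X]
        exact hσ _
      exact congrArg (fun f : Po 3 k →ₐ[k] K3 k => f Q) h1
    have h0 : aeval (ph τ m) (P 0) ≠ 0 := by
      rw [← hσa, Ne, map_eq_zero_iff σ σ.injective, map_eq_zero_iff _
        (IsFractionRing.injective (Po 3 k) (K3 k))]
      exact hP0
    have hph2 : ∀ i, ph τ (m + n) i * aeval (ph τ m) (P 0) = aeval (ph τ m) (P i.succ) := by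
      intro i
      have h1 : ph τ (m + n) i = σ (ph τ n i) := by
        unfold ph
        rw [hσ, Function.iterate_add_apply]
      rw [h1, ← hσa, ← hσa, ← map_mul, hph i]
    have hz : lc s (ph τ (m + n)) =
        aeval (ph τ m) (MvPolynomial.map (algebraMap k κ) (∑ i, s i • P (Fin.succ i))) /
          aeval (ph τ m) (MvPolynomial.map (algebraMap k κ) (P 0)) := by
      rw [MvPolynomial.aeval_map_algebraMap, MvPolynomial.aeval_map_algebraMap, eq_div_iff h0]
      unfold lc
      rw [Finset.sum_mul, map_sum]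
      refine Finset.sum_congr rfl fun i _ => ?_
      rw [smul_mul_assoc, hph2 i, map_smul]
    rw [hz]
    refine hPDG k κ (K3 k) 3 (ph τ m) Y δ _ _ hy ht (fun u => ?_) ?_ ?_ ?_
    · rw [← hins]
      exact hBd u s' s''
    · refine (totalDegree_map_le' _ _).trans ?_
      refine (MvPolynomial.totalDegree_finsetSum _ _).trans (Finset.sup_le fun i _ => ?_)
      exact (MvPolynomial.totalDegree_smul_le _ _).trans (hdeg _)
    · exact (totalDegree_map_le' _ _).trans (hdeg _)
    · rw [MvPolynomial.aeval_map_algebraMap]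
      exact h0
  · have h1 : ¬ Module.Finite (IntermediateField.adjoin κ {lc s (ph τ (m + n))}) (K3 k) :=
      fun h => hy ⟨_, h⟩
    have h2 : dg κ {lc s (ph τ (m + n))} = 0 := by
      unfold dg
      exact Module.finrank_of_not_finite h1
    rw [h2]
    exact Nat.zero_le _

end Pool.Agent.H14.TD
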